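import Mathlib

set_option autoImplicit false

/-!
# MP_b875bc_co: the extremal graph for equal-degree vertices joined by a path of length three

The combinatorial core of `ExtremalUnique`.  Let `v` be a vertex of maximum degree `D`, `A = N(v)`,
`B = V \ A`, `β = |B|`, `x = D - β`, and let `S` be the set of vertices of `A` whose degree is unique in `A`.
-/

namespace Pool.Agent.Lib.MPb875bc.EU

open Finset

/-- The sum of an injective integer-valued nonnegative function. -/
lemma sum_choose_le {V : Type*} [DecidableEq V] (S : Finset V) (f : V → ℤ)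
    (h0 : ∀ x ∈ S, 0 ≤ f x) (hf : Set.InjOn f S) :
    ((S.card : ℤ) * (S.card - 1)) ≤ 2 * ∑ x ∈ S, f x := by
  have h1 : ∑ x ∈ S, f x = ∑ z ∈ S.image f, z := by
    rw [Finset.sum_image hf]
  have h2 := Finset.sum_range_le_sum (s := S.image f) (c := 0) (by
    intro x hx
    obtain ⟨y, hy, rfl⟩ := Finset.mem_image.1 hx
    exact h0 y hy)
  rw [Finset.card_image_of_injOn hf] at h2
  have h3 : ∀ k : ℕ, 2 * ∑ i ∈ Finset.range k, ((0 : ℤ) + (i : ℤ)) = (k : ℤ) * (k - 1) := by
    intro k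
    induction k with
    | zero => simp
    | succ k ih =>
      rw [Finset.sum_range_succ, mul_add, ih]
      push_cast
      ring
  rw [h1]
  have := h3 S.card
  linarith

/-- The same with a lower bound `t` of the values. -/
lemma sum_choose_le' {V : Type*} [DecidableEq V] (S : Finset V) (f : V → ℤ) (t : ℤ)
    (h0 : ∀ x ∈ S, t ≤ f x) (hf : Set.InjOn f S) :
    ((S.card : ℤ) * (S.card - 1)) + 2 * t * S.card ≤ 2 * ∑ x ∈ S, f x := by
  have := sum_choose_le S (fun x => f x - t) (fun x hx => by have := h0 x hx; linarith)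
    (fun a ha b hb h => hf ha hb (by simpa using h))
  rw [Finset.sum_sub_distrib, Finset.sum_const, nsmul_eq_mul] at this
  linarith

lemma arith_K (N D β x s SR SS SB e c : ℤ) (h1 : D + β = N) (h2 : x = D - β)
    (h3 : SR + SS + SB = N * D - 2 * e) (h4 : N ^ 2 - c ≤ 4 * e) :
    x ^ 2 - 2 * s * x + 2 * SS + 2 * SB + 2 * (SR - x * (D - s)) ≤ c := by
  subst h1 h2
  nlinarith

lemma arith_x (N D β c e : ℤ) (hN : 5 ≤ N) (h1 : D + β = N) (hc : c ≤ 4)
    (h3 : 2 * e ≤ N * D) (h4 : N ^ 2 - c ≤ 4 * e) : β ≤ D := by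
  by_contra h
  push Not at h
  have h5 : 2 * D + 1 ≤ N := by linarith
  nlinarith

section core

variable {V : Type*} [Fintype V] [DecidableEq V] (G : SimpleGraph V) [DecidableRel G.Adj]

lemma degree_split (A : Finset V) (x : V) :
    G.degree x = (G.neighborFinset x ∩ A).card + (G.neighborFinset x ∩ Aᶜ).card := by
  rw [← G.card_neighborFinset_eq_degree x]
  rw [← Finset.card_union_of_disjoint]
  · rw [← Finset.inter_union_distrib_left]
    simp
  · exact Finset.disjoint_left.2 (fun a ha hb => by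
      simp only [Finset.mem_inter, Finset.mem_compl] at ha hb
      exact hb.2 ha.2)

/-- The property of `G` that no two distinct vertices of the same degree are joined by a path of length
three. -/
def NP : Prop := ∀ x y v x' : V, G.Adj x y → G.Adj y v → G.Adj v x' → x ≠ v → x ≠ x' → y ≠ x' →
  G.degree x ≠ G.degree x'

/-- The situation. -/
structure Sit (N D β : ℕ) (v : V) (A S : Finset V) : Prop where
  N5 : 5 ≤ N
  P : NP G
  hD : G.degree v = D
  hmax : ∀ x, G.degree x ≤ D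
  hAmem : ∀ x, x ∈ A ↔ G.Adj v x
  hAcard : A.card = D
  hβ : (Aᶜ).card = β
  sum : D + β = N
  hSA : S ⊆ A
  hSuniq : ∀ y ∈ S, ∀ y' ∈ A, G.degree y' = G.degree y → y' = y
  hnS : ∀ y ∈ A \ S, ∃ y' ∈ A, y' ≠ y ∧ G.degree y' = G.degree y

variable {G}

namespace Sit

variable {N D β : ℕ} {v : V} {A S : Finset V} (h : Sit G N D β v A S)

include h

lemma hvA : v ∉ A := by rw [h.hAmem]; exact G.loopless.irrefl v

lemma hvB : v ∈ Aᶜ := by simpa using h.hvA

lemma claim_a0 {y y' : V} (hy : y ∈ A) (hy' : y' ∈ A) (hne : y' ≠ y)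
    (hd : G.degree y' = G.degree y) : G.neighborFinset y ∩ A ⊆ {y'} := by
  intro z hz
  rw [Finset.mem_inter, SimpleGraph.mem_neighborFinset] at hz
  rw [Finset.mem_singleton]
  by_contra hzy
  have hyv : y ≠ v := by rintro rfl; exact h.hvA hy
  exact h.P y z v y' hz.1 ((h.hAmem z).1 hz.2).symm ((h.hAmem y').1 hy') hyv (Ne.symm hne) hzy hd.symm

lemma claim_c0 {b a : V} (hb : b ∈ Aᶜ) (hbv : b ≠ v) (ha : a ∈ A)
    (hd : G.degree a = G.degree b) : G.neighborFinset b ∩ A ⊆ {a} := by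
  have hbA : b ∉ A := by simpa using hb
  intro y hy
  rw [Finset.mem_inter, SimpleGraph.mem_neighborFinset] at hy
  rw [Finset.mem_singleton]
  by_contra hya
  have hba : b ≠ a := by rintro rfl; exact hbA ha
  exact h.P b y v a hy.1 ((h.hAmem y).1 hy.2).symm ((h.hAmem a).1 ha) hbv hba hya hd.symm

lemma claim_c {b a : V} (hb : b ∈ Aᶜ) (hbv : b ≠ v) (ha : a ∈ A)
    (hd : G.degree a = G.degree b) : G.degree b + 1 ≤ β := by
  have hbA : b ∉ A := by simpa using hb
  have h1' := Finset.card_le_card (h.claim_c0 hb hbv ha hd)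
  rw [Finset.card_singleton] at h1'
  have h2 : G.neighborFinset b ∩ Aᶜ ⊆ (Aᶜ.erase v).erase b := by
    intro z hz
    rw [Finset.mem_inter, SimpleGraph.mem_neighborFinset] at hz
    rw [Finset.mem_erase, Finset.mem_erase]
    refine ⟨?_, ?_, hz.2⟩
    · rintro rfl; exact G.loopless.irrefl _ hz.1
    · rintro rfl; exact hbA ((h.hAmem b).2 hz.1.symm)
  have h2' := Finset.card_le_card h2
  have hbmem : b ∈ Aᶜ.erase v := Finset.mem_erase.2 ⟨hbv, hb⟩
  rw [Finset.card_erase_of_mem hbmem, Finset.card_erase_of_mem h.hvB, h.hβ] at h2'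
  have h3 := degree_split G A b
  have h4 : 0 < (Aᶜ.erase v).card := Finset.card_pos.2 ⟨b, hbmem⟩
  rw [Finset.card_erase_of_mem h.hvB, h.hβ] at h4
  omega

lemma hRS {y z : V} (hy : y ∈ S) (hz : z ∈ A \ S) : ¬ G.Adj y z := by
  intro hadj
  obtain ⟨z', hz', hne, hd⟩ := h.hnS z hz
  have hzA := (Finset.mem_sdiff.1 hz).1
  have h1 := h.claim_a0 hzA hz' hne hd
    (Finset.mem_inter.2 ⟨(G.mem_neighborFinset z y).2 hadj.symm, h.hSA hy⟩)
  rw [Finset.mem_singleton] at h1
  subst h1
  exact hne ((h.hSuniq y hy z hzA hd.symm).symm)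

lemma hNS {y : V} (hy : y ∈ S) : G.neighborFinset y ∩ A ⊆ S.erase y := by
  intro z hz
  rw [Finset.mem_inter, SimpleGraph.mem_neighborFinset] at hz
  rw [Finset.mem_erase]
  refine ⟨fun h1 => G.loopless.irrefl _ (h1 ▸ hz.1), ?_⟩
  by_contra hzS
  exact h.hRS hy (Finset.mem_sdiff.2 ⟨hz.2, hzS⟩) hz.1

lemma hdegS {y : V} (hy : y ∈ S) : G.degree y + 1 ≤ β + S.card := by
  have h1 := Finset.card_le_card (h.hNS hy)
  rw [Finset.card_erase_of_mem hy] at h1
  have h2 : (G.neighborFinset y ∩ Aᶜ).card ≤ β := by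
    rw [← h.hβ]; exact Finset.card_le_card Finset.inter_subset_right
  have h3 := degree_split G A y
  have h4 : 0 < S.card := Finset.card_pos.2 ⟨y, hy⟩
  omega

lemma hdegR {z : V} (hz : z ∈ A \ S) : G.degree z ≤ β + 1 := by
  obtain ⟨z', hz', hne, hd⟩ := h.hnS z hz
  have h1 := Finset.card_le_card (h.claim_a0 (Finset.mem_sdiff.1 hz).1 hz' hne hd)
  rw [Finset.card_singleton] at h1
  have h2 : (G.neighborFinset z ∩ Aᶜ).card ≤ β := by
    rw [← h.hβ]; exact Finset.card_le_card Finset.inter_subset_right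
  have h3 := degree_split G A z
  omega

/-- Three vertices of `A` of the same degree: no neighbours in `A`. -/
lemma three {y₁ y₂ y₃ : V} (h₁ : y₁ ∈ A) (h₂ : y₂ ∈ A) (h₃ : y₃ ∈ A) (h12 : y₁ ≠ y₂)
    (h13 : y₁ ≠ y₃) (h23 : y₂ ≠ y₃) (d2 : G.degree y₂ = G.degree y₁)
    (d3 : G.degree y₃ = G.degree y₁) : G.neighborFinset y₁ ∩ A = ∅ := by
  rw [Finset.eq_empty_iff_forall_notMem]
  intro z hz
  have a1 := Finset.mem_singleton.1 (h.claim_a0 h₁ h₂ h12.symm d2 hz)
  have a2 := Finset.mem_singleton.1 (h.claim_a0 h₁ h₃ h13.symm d3 hz)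
  exact h23 (a1.symm.trans a2)

/-- At most two repeated vertices have degree `β + 1`. -/
lemma two : ((A \ S).filter (fun y => G.degree y = β + 1)).card ≤ 2 := by
  by_contra hcon
  push Not at hcon
  obtain ⟨y₁, y₂, y₃, m1, m2, m3, h12, h13, h23⟩ := Finset.two_lt_card_iff.1 hcon
  simp only [Finset.mem_filter, Finset.mem_sdiff] at m1 m2 m3
  have h4 := h.three m1.1.1 m2.1.1 m3.1.1 h12 h13 h23 (by rw [m1.2, m2.2]) (by rw [m1.2, m3.2])
  have h2 : (G.neighborFinset y₁ ∩ Aᶜ).card ≤ β := by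
    rw [← h.hβ]; exact Finset.card_le_card Finset.inter_subset_right
  have h3 := degree_split G A y₁
  rw [h4, Finset.card_empty] at h3
  omega

/-- The exceptional pair. -/
lemma pair {y : V} (hy : y ∈ A \ S) (hd : G.degree y = β + 1) :
    ∃ y', y' ∈ A \ S ∧ y' ≠ y ∧ G.degree y' = β + 1 ∧ G.Adj y y' ∧
      (∀ b ∈ Aᶜ, G.Adj y b) ∧ ∀ b ∈ Aᶜ, G.Adj y' b := by
  have key : ∀ z z' : V, z ∈ A → z' ∈ A → z' ≠ z → G.degree z' = G.degree z →
      G.degree z = β + 1 → G.Adj z z' ∧ ∀ b ∈ Aᶜ, G.Adj z b := by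
    intro z z' hz hz' hne hzz hzd
    have h1 := h.claim_a0 hz hz' hne hzz
    have h1' := Finset.card_le_card h1
    rw [Finset.card_singleton] at h1'
    have h2 : (G.neighborFinset z ∩ Aᶜ).card ≤ β := by
      rw [← h.hβ]; exact Finset.card_le_card Finset.inter_subset_right
    have h3 := degree_split G A z
    constructor
    · have h4 : G.neighborFinset z ∩ A = {z'} :=
        Finset.eq_of_subset_of_card_le h1 (by rw [Finset.card_singleton]; omega)
      have h5 : z' ∈ G.neighborFinset z ∩ A := by rw [h4]; exact Finset.mem_singleton_self _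
      exact (G.mem_neighborFinset z z').1 (Finset.mem_inter.1 h5).1
    · intro b hb
      have h4 : G.neighborFinset z ∩ Aᶜ = Aᶜ :=
        Finset.eq_of_subset_of_card_le Finset.inter_subset_right (by rw [h.hβ]; omega)
      rw [← h4] at hb
      exact (G.mem_neighborFinset z b).1 (Finset.mem_inter.1 hb).1
  obtain ⟨y', hy', hne, hdd⟩ := h.hnS y hy
  have hyA := (Finset.mem_sdiff.1 hy).1
  obtain ⟨k1, k2⟩ := key y y' hyA hy' hne hdd hd
  obtain ⟨k3, k4⟩ := key y' y hy' hyA hne.symm hdd.symm (by rw [hdd, hd])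
  refine ⟨y', ?_, hne, by rw [hdd, hd], k1, k2, k4⟩
  rw [Finset.mem_sdiff]
  refine ⟨hy', fun hS => hne.symm ?_⟩
  exact h.hSuniq y' hS y hyA hdd.symm

/-- The case `B = {v}`. -/
lemma card_S_le (hβ1 : β = 1) : S.card ≤ 1 := by
  by_contra hs2
  push Not at hs2
  have hdegS1 : ∀ y ∈ S, 1 ≤ G.degree y := by
    intro y hy
    rw [Nat.succ_le_iff, SimpleGraph.degree_pos_iff_exists_adj]
    exact ⟨v, ((h.hAmem y).1 (h.hSA hy)).symm⟩
  have himg : S.image (fun y => G.degree y) = Finset.Icc 1 S.card := by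
    apply Finset.eq_of_subset_of_card_le
    · intro k hk
      obtain ⟨y, hy, rfl⟩ := Finset.mem_image.1 hk
      rw [Finset.mem_Icc]
      have := h.hdegS hy
      exact ⟨hdegS1 y hy, by omega⟩
    · rw [Finset.card_image_of_injOn]
      · simp
      · intro x hx y hy hxy
        exact h.hSuniq y hy x (h.hSA hx) hxy
  have hmem1 : 1 ∈ S.image (fun y => G.degree y) := by
    rw [himg, Finset.mem_Icc]; omega
  have hmems : S.card ∈ S.image (fun y => G.degree y) := by
    rw [himg, Finset.mem_Icc]; omega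
  obtain ⟨y, hy, hy1⟩ := Finset.mem_image.1 hmem1
  obtain ⟨z, hz, hzs⟩ := Finset.mem_image.1 hmems
  have hyz : y ≠ z := by
    rintro rfl
    omega
  have h2 := Finset.card_le_card (h.hNS hz)
  rw [Finset.card_erase_of_mem hz] at h2
  have h3 : (G.neighborFinset z ∩ Aᶜ).card ≤ β := by
    rw [← h.hβ]; exact Finset.card_le_card Finset.inter_subset_right
  have h4 := degree_split G A z
  have hNz : G.neighborFinset z ∩ A = S.erase z := by
    apply Finset.eq_of_subset_of_card_le (h.hNS hz)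
    rw [Finset.card_erase_of_mem hz]
    omega
  have hzy : G.Adj z y := by
    have : y ∈ G.neighborFinset z ∩ A := by
      rw [hNz, Finset.mem_erase]
      exact ⟨hyz, hy⟩
    exact (G.mem_neighborFinset z y).1 (Finset.mem_inter.1 this).1
  have h5 : ({v, z} : Finset V) ⊆ G.neighborFinset y := by
    intro w hw
    rw [Finset.mem_insert, Finset.mem_singleton] at hw
    rw [SimpleGraph.mem_neighborFinset]
    rcases hw with rfl | rfl
    · exact ((h.hAmem y).1 (h.hSA hy)).symm
    · exact hzy.symm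
  have h6 := Finset.card_le_card h5
  rw [Finset.card_pair (by rintro rfl; exact h.hvA (h.hSA hz)),
    G.card_neighborFinset_eq_degree] at h6
  omega


/-! ### counting -/

/-- The deficit. -/
def f (G : SimpleGraph V) [DecidableRel G.Adj] (D : ℕ) (x : V) : ℤ := (D : ℤ) - G.degree x

lemma f0 (x : V) : 0 ≤ f G D x := by
  unfold f; have := h.hmax x; omega

lemma fv : f G D v = 0 := by
  unfold f; rw [h.hD]; ring

omit [DecidableEq V] h in
lemma f_eq {x y : V} (hxy : f G D x = f G D y) : G.degree x = G.degree y := by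
  unfold f at hxy; omega

lemma injS : Set.InjOn (f G D) (S : Set V) := by
  intro x hx y hy hxy
  exact h.hSuniq y hy x (h.hSA hx) (f_eq hxy)

omit h in
lemma inj_insert {T : Finset V} {z : V} (hT : Set.InjOn (f G D) (T : Set V))
    (hz : ∀ y ∈ T, f G D y ≠ f G D z) : z ∉ T ∧ Set.InjOn (f G D) ((insert z T : Finset V) : Set V) := by
  have hzT : z ∉ T := fun h1 => hz z h1 rfl
  refine ⟨hzT, ?_⟩
  rw [Finset.coe_insert, Set.injOn_insert (by simpa using hzT)]
  refine ⟨hT, ?_⟩
  rintro ⟨a, ha, hab⟩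
  exact hz a ha hab

lemma RneS {z : V} (hz : z ∈ A \ S) : ∀ y ∈ S, f G D y ≠ f G D z := by
  intro y hy hyz
  rw [Finset.mem_sdiff] at hz
  have := h.hSuniq y hy z hz.1 (f_eq hyz).symm
  exact hz.2 (this ▸ hy)

lemma cardR : ((A \ S).card : ℤ) = (D : ℤ) - S.card := by
  have h1 : (A \ S).card + S.card = A.card := Finset.card_sdiff_add_card_eq_card h.hSA
  rw [h.hAcard] at h1
  omega

lemma sumR_ge : ((D : ℤ) - β) * ((D : ℤ) - S.card) - 2 ≤ ∑ z ∈ A \ S, f G D z := by
  have h1 : ∑ z ∈ A \ S, (((D : ℤ) - β) - if G.degree z = β + 1 then 1 else 0) ≤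
      ∑ z ∈ A \ S, f G D z := by
    apply Finset.sum_le_sum
    intro z hz
    have := h.hdegR hz
    unfold f
    split_ifs with hc <;> omega
  rw [Finset.sum_sub_distrib, Finset.sum_const, nsmul_eq_mul, h.cardR] at h1
  have h2 : (∑ z ∈ A \ S, if G.degree z = β + 1 then (1 : ℤ) else 0) ≤ 2 := by
    rw [← Finset.sum_filter, Finset.sum_const, nsmul_eq_mul, mul_one]
    exact_mod_cast h.two
  rw [mul_comm] at h1
  linarith

lemma sumR_ge' (hY : ∀ z ∈ A \ S, G.degree z ≤ β) :
    ((D : ℤ) - β) * ((D : ℤ) - S.card) ≤ ∑ z ∈ A \ S, f G D z := by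
  have h1 : ∑ z ∈ A \ S, ((D : ℤ) - β) ≤ ∑ z ∈ A \ S, f G D z := by
    apply Finset.sum_le_sum
    intro z hz
    have := hY z hz
    unfold f
    omega
  rw [Finset.sum_const, nsmul_eq_mul, h.cardR, mul_comm] at h1
  exact h1

/-- If the sum over `R` is minimal then all terms are. -/
lemma sumR_eq (hY : ∀ z ∈ A \ S, G.degree z ≤ β)
    (he : ∑ z ∈ A \ S, f G D z ≤ ((D : ℤ) - β) * ((D : ℤ) - S.card)) :
    ∀ z ∈ A \ S, G.degree z = β := by
  have h1 : ∑ z ∈ A \ S, (f G D z - ((D : ℤ) - β)) ≤ 0 := by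
    rw [Finset.sum_sub_distrib, Finset.sum_const, nsmul_eq_mul, h.cardR]
    linarith [mul_comm ((D : ℤ) - S.card) ((D : ℤ) - β)]
  intro z hz
  have h2 : f G D z - ((D : ℤ) - β) ≤ ∑ z ∈ A \ S, (f G D z - ((D : ℤ) - β)) :=
    Finset.single_le_sum (f := fun z => f G D z - ((D : ℤ) - β)) (fun w hw => by
      have := hY w hw
      simp only [f]
      omega) hz
  have h3 := hY z hz
  have h4 : f G D z = (D : ℤ) - G.degree z := rfl
  omega

lemma sums : ∑ z ∈ A \ S, f G D z + ∑ z ∈ S, f G D z + ∑ z ∈ Aᶜ, f G D z =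
    (N : ℤ) * D - 2 * G.edgeFinset.card := by
  rw [Finset.sum_sdiff h.hSA, Finset.sum_add_sum_compl]
  unfold f
  rw [Finset.sum_sub_distrib, Finset.sum_const, nsmul_eq_mul, Finset.card_univ]
  have h1 : Fintype.card V = N := by
    have h2 := Finset.card_add_card_compl A
    rw [h.hAcard, h.hβ, h.sum] at h2
    exact h2.symm
  rw [h1]
  have h3 : ∑ x, G.degree x = 2 * G.edgeFinset.card := G.sum_degrees_eq_twice_card_edges
  have h4 : (∑ x, (G.degree x : ℤ)) = 2 * (G.edgeFinset.card : ℤ) := by exact_mod_cast h3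
  rw [h4]

lemma SS_ge : (S.card : ℤ) * (S.card - 1) ≤ 2 * ∑ y ∈ S, f G D y :=
  sum_choose_le S (f G D) (fun x _ => h.f0 x) h.injS

lemma SS_ge' : (S.card : ℤ) * (S.card - 1) + 2 * ((D : ℤ) - β + 1 - S.card) * S.card ≤
    2 * ∑ y ∈ S, f G D y :=
  sum_choose_le' S (f G D) _ (fun y hy => by
    have := h.hdegS hy
    unfold f
    omega) h.injS

lemma SB_ge {b : V} (hb : b ∈ Aᶜ) : f G D b ≤ ∑ z ∈ Aᶜ, f G D z :=
  Finset.single_le_sum (fun x _ => h.f0 x) hb

/-- Type (i) vertices of `B`. -/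
lemma typeI {b a : V} (hb : b ∈ Aᶜ) (hbv : b ≠ v) (ha : a ∈ A)
    (hd : G.degree a = G.degree b) : (D : ℤ) - β + 1 ≤ f G D b := by
  have := h.claim_c hb hbv ha hd
  unfold f
  omega

lemma K (c : ℤ) (hE : (N : ℤ) ^ 2 - c ≤ 4 * G.edgeFinset.card) :
    ((D : ℤ) - β) ^ 2 - 2 * S.card * ((D : ℤ) - β) + 2 * ∑ z ∈ S, f G D z + 2 * ∑ z ∈ Aᶜ, f G D z +
      2 * (∑ z ∈ A \ S, f G D z - ((D : ℤ) - β) * ((D : ℤ) - S.card)) ≤ c :=
  arith_K N D β ((D : ℤ) - β) S.card _ _ _ G.edgeFinset.card c (by exact_mod_cast h.sum) rfl h.sums hE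

lemma SB0 : 0 ≤ ∑ z ∈ Aᶜ, f G D z := Finset.sum_nonneg (fun x _ => h.f0 x)

lemma case_one (c : ℤ) (hc : c ≤ 4) (hE : (N : ℤ) ^ 2 - c ≤ 4 * G.edgeFinset.card)
    (hβ1 : β = 1) : False := by
  have h1 := h.K c hE
  have h2 := h.sumR_ge
  have h3 := h.SS_ge'
  have h4 := h.SB0
  have h5 := h.card_S_le hβ1
  have h6 := h.sum
  have h7 := h.N5
  have hD4 : (4 : ℤ) ≤ D := by omega
  rw [hβ1] at h1 h2 h3
  push_cast at h1 h2 h3
  have h8 : S.card = 0 ∨ S.card = 1 := by omega
  rcases h8 with h8 | h8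
  · rw [h8] at h1 h2 h3
    push_cast at h1 h2 h3
    nlinarith
  · rw [h8] at h1 h2 h3
    push_cast at h1 h2 h3
    nlinarith

/-- The case of an adjacent pair of vertices of degree `β + 1` in `A`. -/
lemma case_pair (c : ℤ) (hc : (c = 1 ∧ N % 2 = 1) ∨ (c = 4 ∧ N % 2 = 0))
    (hE : (N : ℤ) ^ 2 - c ≤ 4 * G.edgeFinset.card) (hβ2 : 2 ≤ β) {y : V} (hy : y ∈ A \ S)
    (hd : G.degree y = β + 1) : False := by
  obtain ⟨y', hy', hne, hd', hyy, hyB, hyB'⟩ := h.pair hy hd
  have hyA := (Finset.mem_sdiff.1 hy).1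
  have hyA' := (Finset.mem_sdiff.1 hy').1
  have hvy := (h.hAmem y).1 hyA
  have hvy' := (h.hAmem y').1 hyA'
  obtain ⟨b₀, hb₀, hbv₀⟩ := Finset.exists_mem_ne (s := Aᶜ) (by rw [h.hβ]; omega) v
  have nB : ∀ b ∈ Aᶜ, b ∉ A := fun b hb => by simpa using hb
  have neB : ∀ b ∈ Aᶜ, ∀ a ∈ A, b ≠ a := fun b hb a ha hba => nB b hb (hba ▸ ha)
  have hBB : ∀ b ∈ Aᶜ, ∀ b' ∈ Aᶜ, b ≠ b' → G.degree b ≠ G.degree b' := by
    intro b hb b' hb' hbb
    exact h.P b y y' b' (hyB b hb).symm hyy (hyB' b' hb') (neB b hb y' hyA') hbb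
      (neB b' hb' y hyA).symm
  have hBA : ∀ b ∈ Aᶜ, b ≠ v → ∀ a ∈ A, G.degree a ≠ G.degree b := by
    intro b hb hbv a ha hdeg
    have h1 := h.claim_c0 hb hbv ha hdeg
    have h2 : y ∈ G.neighborFinset b ∩ A :=
      Finset.mem_inter.2 ⟨(G.mem_neighborFinset b y).2 (hyB b hb).symm, hyA⟩
    have h3 : y' ∈ G.neighborFinset b ∩ A :=
      Finset.mem_inter.2 ⟨(G.mem_neighborFinset b y').2 (hyB' b hb).symm, hyA'⟩
    exact hne ((Finset.mem_singleton.1 (h1 h3)).trans (Finset.mem_singleton.1 (h1 h2)).symm)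
  have hvB := h.hvB
  have hDy : G.degree y ≠ D := by
    rw [← h.hD]
    exact (h.P v y' b₀ y hvy' (hyB' b₀ hb₀) (hyB b₀ hb₀).symm hbv₀.symm (neB v hvB y hyA)
      hne).symm
  have hDβ : β + 2 ≤ D := by
    have := h.hmax y
    omega
  have hvS : ∀ a ∈ S, G.degree a ≠ D := by
    intro a ha had
    by_cases hb : ∃ b ∈ Aᶜ, b ≠ v ∧ G.Adj a b
    · obtain ⟨b, hb, hbv, hab⟩ := hb
      refine h.P v y b a hvy (hyB b hb) hab.symm hbv.symm (neB v hvB a (h.hSA ha)) ?_
        (by rw [h.hD, had])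
      rintro rfl
      exact (Finset.mem_sdiff.1 hy).2 ha
    · push Not at hb
      have h1 : G.neighborFinset a ∩ Aᶜ ⊆ {v} := by
        intro z hz
        rw [Finset.mem_inter, SimpleGraph.mem_neighborFinset] at hz
        rw [Finset.mem_singleton]
        by_contra hzv
        exact hb z hz.2 hzv hz.1
      have h2 := Finset.card_le_card h1
      rw [Finset.card_singleton] at h2
      have h3 := Finset.card_le_card (h.hNS ha)
      rw [Finset.card_erase_of_mem ha] at h3
      have h4 := degree_split G A a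
      have h5 : ({y, y'} : Finset V) ⊆ A \ S := by
        intro z hz
        rw [Finset.mem_insert, Finset.mem_singleton] at hz
        rcases hz with rfl | rfl
        · exact hy
        · exact hy'
      have h6 := Finset.card_le_card h5
      rw [Finset.card_pair hne.symm] at h6
      have h7 := h.cardR
      have h8 : 0 < S.card := Finset.card_pos.2 ⟨a, ha⟩
      omega
  -- the deficits on `S ∪ B` are distinct
  have hinj : Set.InjOn (f G D) ((S ∪ Aᶜ : Finset V) : Set V) := by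
    intro p hp q hq hpq
    have hpq' := f_eq hpq
    rw [Finset.mem_coe, Finset.mem_union] at hp hq
    by_contra hne'
    have aux : ∀ a ∈ S, ∀ b ∈ Aᶜ, G.degree a ≠ G.degree b := by
      intro a ha b hb
      by_cases hbv : b = v
      · rw [hbv, h.hD]; exact hvS a ha
      · exact hBA b hb hbv a (h.hSA ha)
    rcases hp with hp | hp <;> rcases hq with hq | hq
    · exact hne' (h.injS hp hq hpq)
    · exact aux p hp q hq hpq'
    · exact aux q hq p hp hpq'.symm
    · exact hBB p hp q hq hne' hpq'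
  have hdis : Disjoint S Aᶜ := by
    rw [Finset.disjoint_left]
    intro a ha hb
    exact nB a hb (h.hSA ha)
  have h1 := sum_choose_le (S ∪ Aᶜ) (f G D) (fun x _ => h.f0 x) hinj
  rw [Finset.card_union_of_disjoint hdis, Finset.sum_union hdis, h.hβ] at h1
  push_cast at h1
  have h2 := h.K c hE
  have h3 := h.sumR_ge
  have hsum := h.sum
  have hN5 := h.N5
  obtain ⟨x, hx⟩ : ∃ x : ℤ, x = (D : ℤ) - β := ⟨_, rfl⟩
  obtain ⟨s, hs⟩ : ∃ s : ℤ, s = (S.card : ℤ) := ⟨_, rfl⟩
  obtain ⟨b, hb⟩ : ∃ b : ℤ, b = (β : ℤ) := ⟨_, rfl⟩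
  have hs0 : 0 ≤ s := by omega
  have hb2 : 2 ≤ b := by omega
  have hx2 : 2 ≤ x := by omega
  have h4 : x ^ 2 - 2 * s * x + (s + b) * (s + b - 1) ≤ c + 4 := by
    rw [hs, hb, hx]
    linarith
  rcases hc with ⟨rfl, hpar⟩ | ⟨rfl, hpar⟩
  · have hx3 : 3 ≤ x := by omega
    have h5 : (s - x) ^ 2 + 3 * s ≤ 3 := by nlinarith [mul_nonneg hs0 (by linarith : 0 ≤ b - 2)]
    have h6 : s ≤ 1 := by nlinarith [sq_nonneg (s - x)]
    nlinarith
  · have hb3 : b = 2 := by
      by_contra hb3
      have hb4 : 3 ≤ b := by omega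
      have h5 : (s - x) ^ 2 + 5 * s ≤ 2 := by nlinarith [mul_nonneg hs0 (by linarith : 0 ≤ b - 3)]
      have h6 : s ≤ 0 := by nlinarith [sq_nonneg (s - x)]
      nlinarith
    have h5 : (s - x) ^ 2 + 3 * s ≤ 6 := by
      rw [hb3] at h4; nlinarith
    have hx4 : x < 4 := by
      by_contra hx4
      push Not at hx4
      have h6 : s ≤ 2 := by nlinarith [sq_nonneg (s - x)]
      nlinarith
    have hβ' : β = 2 := by omega
    have hD' : D = 4 := by omega
    have hN' : N = 6 := by omega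
    -- the case of six vertices
    have hB2 : Aᶜ = {v, b₀} := by
      symm
      apply Finset.eq_of_subset_of_card_le
      · intro z hz
        rw [Finset.mem_insert, Finset.mem_singleton] at hz
        rcases hz with rfl | rfl
        · exact hvB
        · exact hb₀
      · rw [h.hβ, Finset.card_pair hbv₀.symm]; omega
    have hyb : ({y, y'} : Finset V) ⊆ G.neighborFinset b₀ := by
      intro z hz
      rw [Finset.mem_insert, Finset.mem_singleton] at hz
      rw [SimpleGraph.mem_neighborFinset]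
      rcases hz with rfl | rfl
      · exact (hyB b₀ hb₀).symm
      · exact (hyB' b₀ hb₀).symm
    have hdb : G.degree b₀ = 2 := by
      have e1 := Finset.card_le_card hyb
      rw [Finset.card_pair hne.symm, G.card_neighborFinset_eq_degree] at e1
      have e2 := h.hmax b₀
      have e3 := hBB b₀ hb₀ v hvB hbv₀
      rw [h.hD] at e3
      have e4 := hBA b₀ hb₀ hbv₀ y hyA
      omega
    have hNb : G.neighborFinset b₀ = {y, y'} := by
      symm
      apply Finset.eq_of_subset_of_card_le hyb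
      rw [G.card_neighborFinset_eq_degree, hdb, Finset.card_pair hne.symm]
    have hz3 : ∀ z ∈ (A.erase y).erase y', (3 : ℤ) ≤ f G D z := by
      intro z hz
      rw [Finset.mem_erase, Finset.mem_erase] at hz
      obtain ⟨hzy', hzy, hzA⟩ := hz
      have e1 : G.neighborFinset z ⊆ insert v (((A.erase y).erase y').erase z) := by
        intro w hw
        rw [SimpleGraph.mem_neighborFinset] at hw
        rw [Finset.mem_insert, Finset.mem_erase, Finset.mem_erase, Finset.mem_erase]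
        by_cases hwA : w ∈ A
        · right
          refine ⟨fun e => G.loopless.irrefl _ (e ▸ hw), ?_, ?_, hwA⟩
          · rintro rfl
            have e2 := h.claim_a0 hwA hyA hne.symm (by rw [hd, hd'])
              (Finset.mem_inter.2 ⟨(G.mem_neighborFinset w z).2 hw.symm, hzA⟩)
            exact hzy (Finset.mem_singleton.1 e2)
          · rintro rfl
            have e2 := h.claim_a0 hwA hyA' hne (by rw [hd, hd'])
              (Finset.mem_inter.2 ⟨(G.mem_neighborFinset w z).2 hw.symm, hzA⟩)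
            exact hzy' (Finset.mem_singleton.1 e2)
        · left
          have e2 : w ∈ Aᶜ := by simpa using hwA
          rw [hB2, Finset.mem_insert, Finset.mem_singleton] at e2
          rcases e2 with e2 | rfl
          · exact e2
          · have e3 : z ∈ G.neighborFinset w := (G.mem_neighborFinset w z).2 hw.symm
            rw [hNb, Finset.mem_insert, Finset.mem_singleton] at e3
            exact absurd e3 (by tauto)
      have e2 := Finset.card_le_card e1
      have e3 := Finset.card_insert_le v (((A.erase y).erase y').erase z)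
      rw [Finset.card_erase_of_mem (Finset.mem_erase.2 ⟨hzy', Finset.mem_erase.2 ⟨hzy, hzA⟩⟩),
        Finset.card_erase_of_mem (Finset.mem_erase.2 ⟨hne, hyA'⟩), Finset.card_erase_of_mem hyA,
        h.hAcard] at e3
      rw [G.card_neighborFinset_eq_degree] at e2
      have e4 := hBA b₀ hb₀ hbv₀ z hzA
      have e5 : f G D z = (D : ℤ) - G.degree z := rfl
      omega
    have hsumz : (6 : ℤ) ≤ ∑ z ∈ (A.erase y).erase y', f G D z := by
      have e1 := Finset.card_nsmul_le_sum ((A.erase y).erase y') (f G D) 3 hz3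
      have e2 : ((A.erase y).erase y').card = 2 := by
        rw [Finset.card_erase_of_mem (Finset.mem_erase.2 ⟨hne, hyA'⟩),
          Finset.card_erase_of_mem hyA, h.hAcard, hD']
      rw [e2] at e1
      simpa using e1
    have e6 : ∑ z ∈ A, f G D z = f G D y + (f G D y' + ∑ z ∈ (A.erase y).erase y', f G D z) := by
      rw [Finset.add_sum_erase _ _ (Finset.mem_erase.2 ⟨hne, hyA'⟩), Finset.add_sum_erase _ _ hyA]
    have e7 : ∑ z ∈ A \ S, f G D z + ∑ z ∈ S, f G D z = ∑ z ∈ A, f G D z :=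
      Finset.sum_sdiff h.hSA
    have e8 := h.SB_ge hb₀
    have e9 := h.sums
    have f1 : f G D y = (D : ℤ) - G.degree y := rfl
    have f2 : f G D y' = (D : ℤ) - G.degree y' := rfl
    have f3 : f G D b₀ = (D : ℤ) - G.degree b₀ := rfl
    have f4 : (N : ℤ) * D = 24 := by rw [hN', hD']; norm_num
    have f5 : (N : ℤ) ^ 2 = 36 := by rw [hN']; norm_num
    rw [f4] at e9
    rw [f5] at hE
    have f6 : f G D y = 1 := by omega
    have f7 : f G D y' = 1 := by omega
    have f8 : f G D b₀ = 2 := by omega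
    linarith

/-- The regular case `D = β`. -/
lemma case_zero (hE : (N : ℤ) ^ 2 - 4 ≤ 4 * G.edgeFinset.card) (hx : D = β) : False := by
  have hsum := h.sum
  have hN5 := h.N5
  have hD3 : 3 ≤ D := by omega
  have h9 := h.sums
  have h10 : ∑ z ∈ A \ S, f G D z + ∑ z ∈ S, f G D z = ∑ z ∈ A, f G D z :=
    Finset.sum_sdiff h.hSA
  rw [h10] at h9
  have hN : (N : ℤ) = 2 * D := by omega
  have h11 : ∑ z ∈ A, f G D z + ∑ z ∈ Aᶜ, f G D z ≤ 2 := by
    rw [h9, hN]
    rw [hN] at hE
    nlinarith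
  have hSA0 : 0 ≤ ∑ z ∈ A, f G D z := Finset.sum_nonneg (fun x _ => h.f0 x)
  by_cases hb : ∃ b ∈ Aᶜ, b ≠ v ∧ f G D b = 0
  · obtain ⟨b, hb, hbv, hfb⟩ := hb
    have h12 : (D : ℤ) ≤ ∑ z ∈ A, f G D z := by
      have h13 : ((A.card : ℕ) : ℤ) • (1 : ℤ) ≤ ∑ z ∈ A, f G D z := by
        have := Finset.card_nsmul_le_sum A (f G D) 1 (fun a ha => by
          by_contra hlt
          have h14 := h.f0 a
          have h15 : f G D a = f G D b := by omega
          have h16 := h.typeI hb hbv ha (f_eq h15)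
          omega)
        simpa using this
      rw [h.hAcard] at h13
      simpa using h13
    have h17 := h.SB0
    omega
  · push Not at hb
    have h12 : (((Aᶜ.erase v).card : ℕ) : ℤ) ≤ ∑ z ∈ Aᶜ.erase v, f G D z := by
      have := Finset.card_nsmul_le_sum (Aᶜ.erase v) (f G D) 1 (fun b hb' => by
        rw [Finset.mem_erase] at hb'
        have h13 := hb b hb'.2 hb'.1
        have h14 := h.f0 b
        omega)
      simpa using this
    have h13 : ∑ z ∈ Aᶜ.erase v, f G D z ≤ ∑ z ∈ Aᶜ, f G D z :=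
      Finset.sum_le_sum_of_subset_of_nonneg (Finset.erase_subset _ _) (fun x _ _ => h.f0 x)
    rw [Finset.card_erase_of_mem h.hvB, h.hβ] at h12
    have hβ3 : β = 3 := by omega
    have hA00 : ∑ z ∈ A, f G D z ≤ 0 := by omega
    have hAD : ∀ a ∈ A, G.degree a = D := by
      intro a ha
      have h5 : f G D a ≤ ∑ x ∈ A, f G D x := Finset.single_le_sum (fun x _ => h.f0 x) ha
      have h6 := h.f0 a
      have h7 : f G D a = (D : ℤ) - G.degree a := rfl
      omega
    obtain ⟨b₀, hb₀, hbv₀⟩ := Finset.exists_mem_ne (s := Aᶜ) (by rw [h.hβ]; omega) v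
    have hall : A ⊆ G.neighborFinset b₀ := by
      intro a ha
      obtain ⟨a₂, ha₂, a₃, ha₃, h12, h13, h23⟩ : ∃ a₂ ∈ A, ∃ a₃ ∈ A, a ≠ a₂ ∧ a ≠ a₃ ∧ a₂ ≠ a₃ := by
        have h14 : 1 < (A.erase a).card := by
          rw [Finset.card_erase_of_mem ha, h.hAcard]; omega
        obtain ⟨a₂, ha₂, a₃, ha₃, h23⟩ := Finset.one_lt_card.1 h14
        rw [Finset.mem_erase] at ha₂ ha₃
        exact ⟨a₂, ha₂.2, a₃, ha₃.2, ha₂.1.symm, ha₃.1.symm, h23⟩
      have h14 := h.three ha ha₂ ha₃ h12 h13 h23 (by rw [hAD _ ha, hAD _ ha₂])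
        (by rw [hAD _ ha, hAD _ ha₃])
      have h15 := degree_split G A a
      rw [h14, Finset.card_empty, hAD a ha] at h15
      have h16 : G.neighborFinset a ∩ Aᶜ = Aᶜ :=
        Finset.eq_of_subset_of_card_le Finset.inter_subset_right (by rw [h.hβ]; omega)
      have h17 : b₀ ∈ G.neighborFinset a ∩ Aᶜ := by rw [h16]; exact hb₀
      exact (G.mem_neighborFinset b₀ a).2 ((G.mem_neighborFinset a b₀).1
        (Finset.mem_inter.1 h17).1).symm
    have h14 := Finset.card_le_card hall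
    rw [h.hAcard, G.card_neighborFinset_eq_degree] at h14
    have h15 := h.hmax b₀
    apply hb b₀ hb₀ hbv₀
    have h16 : f G D b₀ = (D : ℤ) - G.degree b₀ := rfl
    omega

lemma exR (hs : S.card < D) : ∃ z, z ∈ A \ S := by
  have h1 := h.cardR
  have h2 : 0 < (A \ S).card := by omega
  exact Finset.card_pos.1 h2

lemma case_big (c : ℤ) (hc : (c = 1 ∧ N % 2 = 1) ∨ (c = 4 ∧ N % 2 = 0))
    (hE : (N : ℤ) ^ 2 - c ≤ 4 * G.edgeFinset.card) (hβ2 : 2 ≤ β) (hx1 : β < D)
    (hY : ∀ z ∈ A \ S, G.degree z ≤ β) (hs : D < β + S.card) : False := by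
  have hK := h.K c hE
  have hR := h.sumR_ge' hY
  have hReq := h.sumR_eq hY
  have hSS := h.SS_ge
  have hsum := h.sum
  have hN5 := h.N5
  obtain ⟨b₀, hb₀, hbv₀⟩ := Finset.exists_mem_ne (s := Aᶜ) (by rw [h.hβ]; omega) v
  have hSB := h.SB_ge hb₀
  obtain ⟨x, hx⟩ : ∃ x : ℤ, x = (D : ℤ) - β := ⟨_, rfl⟩
  obtain ⟨s, hs'⟩ : ∃ s : ℤ, s = (S.card : ℤ) := ⟨_, rfl⟩
  obtain ⟨SR, hSR⟩ : ∃ t : ℤ, t = ∑ z ∈ A \ S, f G D z := ⟨_, rfl⟩
  obtain ⟨SS, hSS'⟩ : ∃ t : ℤ, t = ∑ z ∈ S, f G D z := ⟨_, rfl⟩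
  obtain ⟨SB, hSB'⟩ : ∃ t : ℤ, t = ∑ z ∈ Aᶜ, f G D z := ⟨_, rfl⟩
  rw [← hx, ← hs', ← hSR, ← hSS', ← hSB'] at hK
  rw [← hx, ← hs', ← hSR] at hR hReq
  rw [← hs', ← hSS'] at hSS
  rw [← hSB'] at hSB
  have hx1' : 1 ≤ x := by omega
  have hu : 1 ≤ s - x := by omega
  have hxc : c = 1 ∨ (c = 4 ∧ 2 ≤ x) := by
    rcases hc with ⟨h1, h2⟩ | ⟨h1, h2⟩
    · exact Or.inl h1
    · right; exact ⟨h1, by omega⟩
  have huu : 0 ≤ (s - x) * (s - x - 1) := mul_nonneg (by linarith) (by linarith)
  by_cases hba : ∃ a ∈ A, G.degree a = G.degree b₀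
  · obtain ⟨a, ha, hd⟩ := hba
    have h1 := h.typeI hb₀ hbv₀ ha hd
    rw [← hx] at h1
    have h2 : x + 1 ≤ SB := h1.trans hSB
    have h3 : (s - x) * (s - x - 1) + x + 2 + 2 * (SR - x * (D - s)) ≤ c := by nlinarith
    have hc4 : c = 4 := by
      rcases hxc with h4 | ⟨h4, -⟩
      · exfalso; rw [h4] at h3; nlinarith
      · exact h4
    have hx2 : x = 2 := by
      rcases hxc with h4 | ⟨-, h4⟩
      · omega
      · nlinarith
    have hs3 : s = 3 := by
      rw [hx2, hc4] at h3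
      nlinarith
    have hw : SR ≤ x * (D - s) := by
      rw [hc4, hx2, hs3] at h3
      rw [hx2, hs3]
      linarith
    have hRall := hReq hw
    obtain ⟨z, hz⟩ := h.exR (by omega)
    have hfz : f G D z = 2 := by
      have := hRall z hz
      have h4 : f G D z = (D : ℤ) - G.degree z := rfl
      omega
    obtain ⟨hzS, hinj⟩ := inj_insert h.injS (h.RneS hz)
    have h5 := sum_choose_le (insert z S) (f G D) (fun x _ => h.f0 x) hinj
    rw [Finset.card_insert_of_notMem hzS, Finset.sum_insert hzS, hfz, ← hSS'] at h5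
    push_cast at h5
    rw [← hs', hs3] at h5
    rw [hc4, hx2, hs3] at hK
    rw [hx2] at h2
    have hR' : 0 ≤ SR - 2 * (D - 3) := by rw [hx2, hs3] at hR; linarith
    linarith
  · have hbS : ∀ y ∈ S, f G D y ≠ f G D b₀ := fun y hy hyb => hba ⟨y, h.hSA hy, f_eq hyb⟩
    obtain ⟨hbS', hinj⟩ := inj_insert h.injS hbS
    have h5 := sum_choose_le (insert b₀ S) (f G D) (fun x _ => h.f0 x) hinj
    rw [Finset.card_insert_of_notMem hbS', Finset.sum_insert hbS', ← hSS'] at h5
    push_cast at h5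
    rw [← hs'] at h5
    have h3 : (s - x) * (s - x + 1) + x + 2 * (SR - x * (D - s)) ≤ c := by nlinarith
    have hc4 : c = 4 := by
      rcases hxc with h4 | ⟨h4, -⟩
      · exfalso; rw [h4] at h3; nlinarith
      · exact h4
    have hx2 : x = 2 := by
      rcases hxc with h4 | ⟨-, h4⟩
      · omega
      · nlinarith
    have hs3 : s = 3 := by
      rw [hx2, hc4] at h3
      nlinarith
    have hw : SR ≤ x * (D - s) := by
      rw [hc4, hx2, hs3] at h3
      rw [hx2, hs3]
      linarith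
    have hRall := hReq hw
    obtain ⟨z, hz⟩ := h.exR (by omega)
    have hfz : f G D z = 2 := by
      have := hRall z hz
      have h4 : f G D z = (D : ℤ) - G.degree z := rfl
      omega
    have hzne : ∀ y ∈ insert b₀ S, f G D y ≠ f G D z := by
      intro y hy
      rw [Finset.mem_insert] at hy
      rcases hy with rfl | hy
      · intro hyz
        exact hba ⟨z, (Finset.mem_sdiff.1 hz).1, (f_eq hyz).symm⟩
      · exact h.RneS hz y hy
    obtain ⟨hzS, hinj2⟩ := inj_insert hinj hzne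
    have h6 := sum_choose_le (insert z (insert b₀ S)) (f G D) (fun x _ => h.f0 x) hinj2
    rw [Finset.card_insert_of_notMem hzS, Finset.card_insert_of_notMem hbS',
      Finset.sum_insert hzS, Finset.sum_insert hbS', hfz, ← hSS'] at h6
    push_cast at h6
    rw [← hs', hs3] at h6
    rw [hc4, hx2, hs3] at hK
    have hR' : 0 ≤ SR - 2 * (D - 3) := by rw [hx2, hs3] at hR; linarith
    linarith

/-- The case `|S| = 2`, `D = β + 2`. -/
lemma case_two (hβ2 : 2 ≤ β) (hx : D = β + 2) (hs : S.card = 2)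
    (hY : ∀ z ∈ A \ S, G.degree z ≤ β)
    (hK : ∑ z ∈ S, f G D z + ∑ z ∈ Aᶜ, f G D z + (∑ z ∈ A \ S, f G D z - 2 * ((D : ℤ) - 2)) ≤ 4) :
    False := by
  obtain ⟨b₀, hb₀, hbv₀⟩ := Finset.exists_mem_ne (s := Aᶜ) (by rw [h.hβ]; omega) v
  have hSB := h.SB_ge hb₀
  have hSB0 := h.SB0
  have hSS := h.SS_ge'
  rw [hs, hx] at hSS
  push_cast at hSS
  have hSS3 : (3 : ℤ) ≤ ∑ z ∈ S, f G D z := by
    have e1 : ∑ z ∈ S, f G D z = ∑ z ∈ S, f G (β + 2) z := by rw [hx]
    rw [e1]
    nlinarith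
  have hcR := h.cardR
  rw [hs] at hcR
  push_cast at hcR
  have hge : ∀ z ∈ A \ S, 2 ≤ f G D z := by
    intro z hz
    have := hY z hz
    have h4 : f G D z = (D : ℤ) - G.degree z := rfl
    omega
  have hw : ∑ z ∈ A \ S, (f G D z - 2) ≤ 1 := by
    rw [Finset.sum_sub_distrib, Finset.sum_const, nsmul_eq_mul, hcR]
    linarith
  have hall : ∀ z ∈ A \ S, f G D z = 2 := by
    intro z hz
    by_contra hne
    have h3 : 3 ≤ f G D z := by
      have := hge z hz
      omega
    obtain ⟨z', hz', hzz, hd⟩ := h.hnS z hz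
    have hz'R : z' ∈ A \ S := by
      rw [Finset.mem_sdiff]
      refine ⟨hz', fun hS => ?_⟩
      have := h.hSuniq z' hS z (Finset.mem_sdiff.1 hz).1 hd.symm
      exact hzz this.symm
    have hf' : f G D z' = f G D z := by
      unfold f; rw [hd]
    have h4 : ∑ w ∈ ({z, z'} : Finset V), (f G D w - 2) ≤ ∑ w ∈ A \ S, (f G D w - 2) := by
      apply Finset.sum_le_sum_of_subset_of_nonneg
      · intro w hw'
        rw [Finset.mem_insert, Finset.mem_singleton] at hw'
        rcases hw' with rfl | rfl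
        · exact hz
        · exact hz'R
      · intro w hw' _
        have := hge w hw'
        omega
    rw [Finset.sum_pair hzz.symm, hf'] at h4
    omega
  obtain ⟨z, hz⟩ := h.exR (by omega)
  obtain ⟨hzS, hinj⟩ := inj_insert h.injS (h.RneS hz)
  have h5 := sum_choose_le' (insert z S) (f G D) 1 (fun y hy => by
    rw [Finset.mem_insert] at hy
    rcases hy with rfl | hy
    · rw [hall _ hz]; norm_num
    · have := h.hdegS hy
      have h4 : f G D y = (D : ℤ) - G.degree y := rfl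
      omega) hinj
  rw [Finset.card_insert_of_notMem hzS, Finset.sum_insert hzS, hall z hz, hs] at h5
  push_cast at h5
  have hw0 : 0 ≤ ∑ z ∈ A \ S, (f G D z - 2) := Finset.sum_nonneg (fun z hz => by
    have := hge z hz
    omega)
  rw [Finset.sum_sub_distrib, Finset.sum_const, nsmul_eq_mul, hcR] at hw0
  have hSS4 : ∑ z ∈ S, f G D z = 4 := by linarith
  have hB0 : ∑ z ∈ Aᶜ, f G D z ≤ 0 := by linarith
  obtain ⟨p, q, hpq, hS⟩ := Finset.card_eq_two.1 hs
  have key : ∀ p q : V, p ≠ q → S = {p, q} → f G D p = 1 → False := by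
    intro p q hpq hS hfp
    have hp : p ∈ S := by rw [hS]; simp
    have hq : q ∈ S := by rw [hS]; simp
    have hdp : G.degree p = β + 1 := by
      have h4 : f G D p = (D : ℤ) - G.degree p := rfl
      omega
    have h6 := h.hNS hp
    have h7 : S.erase p = {q} := by
      rw [hS, Finset.erase_insert (by simpa using hpq)]
    rw [h7] at h6
    have h6' := Finset.card_le_card h6
    rw [Finset.card_singleton] at h6'
    have h8 : (G.neighborFinset p ∩ Aᶜ).card ≤ β := by
      rw [← h.hβ]; exact Finset.card_le_card Finset.inter_subset_right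
    have h9 := degree_split G A p
    have h10 : G.neighborFinset p ∩ A = {q} :=
      Finset.eq_of_subset_of_card_le h6 (by rw [Finset.card_singleton]; omega)
    have h11 : G.neighborFinset p ∩ Aᶜ = Aᶜ :=
      Finset.eq_of_subset_of_card_le Finset.inter_subset_right (by rw [h.hβ]; omega)
    have hpq' : G.Adj p q := by
      have : q ∈ G.neighborFinset p ∩ A := by rw [h10]; exact Finset.mem_singleton_self _
      exact (G.mem_neighborFinset p q).1 (Finset.mem_inter.1 this).1
    have hpb : G.Adj p b₀ := by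
      have : b₀ ∈ G.neighborFinset p ∩ Aᶜ := by rw [h11]; exact hb₀
      exact (G.mem_neighborFinset p b₀).1 (Finset.mem_inter.1 this).1
    have hbA : b₀ ∉ A := by simpa using hb₀
    refine h.P v q p b₀ ((h.hAmem q).1 (h.hSA hq)) hpq'.symm hpb ?_ hbv₀.symm ?_ ?_
    · rintro rfl; exact h.hvA (h.hSA hp)
    · rintro rfl; exact hbA (h.hSA hq)
    · have h12 := h.f0 b₀
      have h13 : f G D b₀ = (D : ℤ) - G.degree b₀ := rfl
      have h14 := h.hD
      omega
  have hp : p ∈ S := by rw [hS]; simp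
  have hq : q ∈ S := by rw [hS]; simp
  have e1 : f G D p + f G D q = 4 := by
    rw [← hSS4, hS, Finset.sum_pair hpq]
  have e2 := h.RneS hz p hp
  have e3 := h.RneS hz q hq
  rw [hall z hz] at e2 e3
  have e4 := h.hdegS hp
  have e5 := h.hdegS hq
  have e6 : f G D p = (D : ℤ) - G.degree p := rfl
  have e7 : f G D q = (D : ℤ) - G.degree q := rfl
  have e8 : f G D p = 1 ∨ f G D q = 1 := by omega
  rcases e8 with e8 | e8
  · exact key p q hpq hS e8
  · exact key q p hpq.symm (by rw [hS, Finset.pair_comm]) e8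

lemma case_small (c : ℤ) (hc : (c = 1 ∧ N % 2 = 1) ∨ (c = 4 ∧ N % 2 = 0))
    (hE : (N : ℤ) ^ 2 - c ≤ 4 * G.edgeFinset.card) (hβ2 : 2 ≤ β) (hx1 : β < D)
    (hY : ∀ z ∈ A \ S, G.degree z ≤ β) (hs : β + S.card ≤ D) :
    S = ∅ ∧ ∑ z ∈ Aᶜ, f G D z ≤ 0 ∧
      ∑ z ∈ A \ S, f G D z ≤ ((D : ℤ) - β) * ((D : ℤ) - S.card) ∧ D = N / 2 + 1 := by
  have hK := h.K c hE
  have hR := h.sumR_ge' hY
  have hReq := h.sumR_eq hY
  have hSS := h.SS_ge'
  have hsum := h.sum
  have hN5 := h.N5
  have hSB := h.SB0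
  obtain ⟨x, hx⟩ : ∃ x : ℤ, x = (D : ℤ) - β := ⟨_, rfl⟩
  obtain ⟨s, hs'⟩ : ∃ s : ℤ, s = (S.card : ℤ) := ⟨_, rfl⟩
  obtain ⟨SR, hSR⟩ : ∃ t : ℤ, t = ∑ z ∈ A \ S, f G D z := ⟨_, rfl⟩
  obtain ⟨SS, hSS'⟩ : ∃ t : ℤ, t = ∑ z ∈ S, f G D z := ⟨_, rfl⟩
  obtain ⟨SB, hSB'⟩ : ∃ t : ℤ, t = ∑ z ∈ Aᶜ, f G D z := ⟨_, rfl⟩
  have hc2 := h.case_two hβ2
  rw [← hSR, ← hSS', ← hSB'] at hc2
  rw [← hx, ← hs', ← hSR, ← hSS', ← hSB'] at hK
  rw [← hx, ← hs', ← hSR] at hR hReq ⊢
  rw [← hx, ← hs', ← hSS'] at hSS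
  rw [← hSB'] at hSB ⊢
  have hx1' : 1 ≤ x := by omega
  have hsx : s ≤ x := by omega
  have hs0 : 0 ≤ s := by omega
  have h2 : 0 ≤ (x - s) * (x + s - 1) := mul_nonneg (by linarith) (by linarith)
  have h3 : x + 2 * SB + 2 * (SR - x * (D - s)) ≤ c := by nlinarith
  have hS0 : s = 0 → S = ∅ := fun h0 => Finset.card_eq_zero.1 (by omega)
  -- `|S| = 1` is impossible
  have hone : s = 1 → SS ≤ x → SR ≤ x * (D - s) → False := by
    intro h1 hle hw
    have hRall := hReq hw
    obtain ⟨z, hz⟩ := h.exR (by omega)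
    have hfz : f G D z = x := by
      have := hRall z hz
      have h4 : f G D z = (D : ℤ) - G.degree z := rfl
      omega
    obtain ⟨y₀, hy₀⟩ := Finset.card_eq_one.1 (show S.card = 1 by omega)
    have hyS : y₀ ∈ S := by rw [hy₀]; simp
    have h4 := h.RneS hz y₀ hyS
    rw [hy₀, Finset.sum_singleton] at hSS'
    rw [h1] at hSS
    apply h4
    rw [hfz, ← hSS']
    linarith
  rcases hc with ⟨rfl, hpar⟩ | ⟨rfl, hpar⟩
  · have hx2 : x = 1 := by nlinarith
    rw [hx2] at h3 hK hsx hR hSS hone ⊢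
    have hcase : s = 0 ∨ s = 1 := by omega
    rcases hcase with h0 | h1
    · refine ⟨hS0 h0, by nlinarith, by linarith, by omega⟩
    · exfalso
      apply hone h1
      · rw [h1] at hK hR; nlinarith
      · linarith
  · have hx4 : x ≤ 4 := by nlinarith
    have hxe : x = 2 ∨ x = 4 := by omega
    rcases hxe with hx2 | hx4'
    · rw [hx2] at h3 hK hsx hR hSS hone ⊢
      have hcase : s = 0 ∨ s = 1 ∨ s = 2 := by omega
      rcases hcase with h0 | h1 | h2'
      · rw [h0] at hK hR hSS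
        refine ⟨hS0 h0, by nlinarith, by rw [h0]; nlinarith, by omega⟩
      · exfalso
        rw [h1] at hK hR hSS
        apply hone h1
        · nlinarith
        · rw [h1]; nlinarith
      · exfalso
        refine hc2 (by omega) (by omega) hY ?_
        rw [h2'] at hK hR hSS
        linarith
    · exfalso
      rw [hx4'] at h3 hK hsx hR hSS hReq
      have h5 : 12 ≤ s * (s - 1) := by nlinarith
      have hs4 : s = 4 := by nlinarith
      rw [hs4] at hK hR hSS hReq
      have hw : SR ≤ 4 * (D - 4) := by nlinarith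
      have hRall := hReq hw
      obtain ⟨z, hz⟩ := h.exR (by omega)
      have hfz : f G D z = 4 := by
        have := hRall z hz
        have h4 : f G D z = (D : ℤ) - G.degree z := rfl
        omega
      obtain ⟨hzS, hinj⟩ := inj_insert h.injS (h.RneS hz)
      have h6 := sum_choose_le' (insert z S) (f G D) 1 (fun y hy => by
        rw [Finset.mem_insert] at hy
        rcases hy with rfl | hy
        · rw [hfz]; norm_num
        · have := h.hdegS hy
          have h4 : f G D y = (D : ℤ) - G.degree y := rfl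
          omega) hinj
      rw [Finset.card_insert_of_notMem hzS, Finset.sum_insert hzS, hfz, ← hSS'] at h6
      push_cast at h6
      rw [← hs', hs4] at h6
      nlinarith

/-- The structure in the extremal case. -/
lemma final (hβ2 : 2 ≤ β) (hx1 : β < D) (hY : ∀ z ∈ A \ S, G.degree z ≤ β) (hS : S = ∅)
    (hSB : ∑ z ∈ Aᶜ, f G D z ≤ 0)
    (hSR : ∑ z ∈ A \ S, f G D z ≤ ((D : ℤ) - β) * ((D : ℤ) - S.card)) :
    ∀ x y, G.Adj x y ↔ ((x ∈ A ∧ y ∉ A) ∨ (x ∉ A ∧ y ∈ A)) := by
  have hA := h.sumR_eq hY hSR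
  rw [hS, Finset.sdiff_empty] at hA
  have hB : ∀ b ∈ Aᶜ, G.degree b = D := by
    intro b hb
    have h1 := h.SB_ge hb
    have h2 := h.f0 b
    have h3 : f G D b = (D : ℤ) - G.degree b := rfl
    omega
  have hNA : ∀ a ∈ A, G.neighborFinset a = Aᶜ := by
    intro a ha
    obtain ⟨a₂, ha₂, a₃, ha₃, h12, h13, h23⟩ : ∃ a₂ ∈ A, ∃ a₃ ∈ A, a ≠ a₂ ∧ a ≠ a₃ ∧ a₂ ≠ a₃ := by
      have h14 : 1 < (A.erase a).card := by
        rw [Finset.card_erase_of_mem ha, h.hAcard]; omega
      obtain ⟨a₂, ha₂, a₃, ha₃, h23⟩ := Finset.one_lt_card.1 h14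
      rw [Finset.mem_erase] at ha₂ ha₃
      exact ⟨a₂, ha₂.2, a₃, ha₃.2, ha₂.1.symm, ha₃.1.symm, h23⟩
    have h14 := h.three ha ha₂ ha₃ h12 h13 h23 (by rw [hA _ ha, hA _ ha₂])
      (by rw [hA _ ha, hA _ ha₃])
    apply Finset.eq_of_subset_of_card_le
    · intro z hz
      rw [Finset.mem_compl]
      intro hzA
      have : z ∈ G.neighborFinset a ∩ A := Finset.mem_inter.2 ⟨hz, hzA⟩
      rw [h14] at this
      exact absurd this (Finset.notMem_empty z)
    · rw [h.hβ, G.card_neighborFinset_eq_degree, hA a ha]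
  have hNB : ∀ b ∈ Aᶜ, G.neighborFinset b = A := by
    intro b hb
    symm
    apply Finset.eq_of_subset_of_card_le
    · intro a ha
      have : b ∈ G.neighborFinset a := by rw [hNA a ha]; exact hb
      exact (G.mem_neighborFinset b a).2 ((G.mem_neighborFinset a b).1 this).symm
    · rw [h.hAcard, G.card_neighborFinset_eq_degree, hB b hb]
  intro x y
  rw [← SimpleGraph.mem_neighborFinset]
  by_cases hx : x ∈ A
  · rw [hNA x hx, Finset.mem_compl]
    simp [hx]
  · rw [hNB x (by simpa using hx)]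
    simp [hx]

end Sit

variable (G)

/-- The combinatorial core: a graph with `N ≥ 5` vertices and at least `⌊(N² - 1) / 4⌋` edges, in which no two
distinct vertices of the same degree are joined by a path of length three, is complete bipartite with one
side of size `⌊N / 2⌋ + 1`. -/
theorem core (N : ℕ) (hN : 5 ≤ N) (hV : Fintype.card V = N)
    (hE : (N ^ 2 - 1) / 4 ≤ G.edgeFinset.card) (P : NP G) :
    ∃ A : Finset V, A.card = N / 2 + 1 ∧
      ∀ x y, G.Adj x y ↔ ((x ∈ A ∧ y ∉ A) ∨ (x ∉ A ∧ y ∈ A)) := by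
  have hne : Nonempty V := by
    rw [← Fintype.card_pos_iff]; omega
  obtain ⟨v, hv⟩ := G.exists_maximal_degree_vertex
  obtain ⟨D, hD⟩ : ∃ D, D = G.degree v := ⟨_, rfl⟩
  obtain ⟨A, hA⟩ : ∃ A, A = G.neighborFinset v := ⟨_, rfl⟩
  obtain ⟨β, hβ⟩ : ∃ β, β = (Aᶜ).card := ⟨_, rfl⟩
  obtain ⟨S, hS⟩ : ∃ S, S = A.filter (fun y => ∀ y' ∈ A, G.degree y' = G.degree y → y' = y) :=
    ⟨_, rfl⟩
  have hAcard : A.card = D := by rw [hA, hD]; simp
  have hBcard : A.card + (Aᶜ).card = N := by
    rw [Finset.card_add_card_compl, hV]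
  have h : Sit G N D β v A S :=
    { N5 := hN
      P := P
      hD := hD.symm
      hmax := by intro x; rw [hD, ← hv]; exact G.degree_le_maxDegree x
      hAmem := by intro x; rw [hA]; simp
      hAcard := hAcard
      hβ := hβ.symm
      sum := by omega
      hSA := by rw [hS]; exact Finset.filter_subset _ _
      hSuniq := by intro y hy; rw [hS, Finset.mem_filter] at hy; exact hy.2
      hnS := by
        intro y hy
        rw [Finset.mem_sdiff, hS, Finset.mem_filter] at hy
        by_contra hcon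
        apply hy.2
        refine ⟨hy.1, fun y' hy' hd => ?_⟩
        by_contra hne'
        exact hcon ⟨y', hy', hne', hd⟩ }
  obtain ⟨c, hc, hEc⟩ : ∃ c : ℤ, ((c = 1 ∧ N % 2 = 1) ∨ (c = 4 ∧ N % 2 = 0)) ∧
      (N : ℤ) ^ 2 - c ≤ 4 * G.edgeFinset.card := by
    rcases Nat.even_or_odd' N with ⟨n, hn | hn⟩
    · refine ⟨4, Or.inr ⟨rfl, by omega⟩, ?_⟩
      have h1 : (N ^ 2 - 1) / 4 + 1 = n ^ 2 := by
        have h2 : N ^ 2 = 4 * n ^ 2 := by rw [hn]; ring
        have h3 : 1 ≤ n ^ 2 := Nat.one_le_pow _ _ (by omega)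
        omega
      have h4 : n ^ 2 ≤ G.edgeFinset.card + 1 := by omega
      have h5 : ((n : ℤ)) ^ 2 ≤ G.edgeFinset.card + 1 := by exact_mod_cast h4
      rw [hn]
      push_cast
      linarith
    · refine ⟨1, Or.inl ⟨rfl, by omega⟩, ?_⟩
      have h1 : (N ^ 2 - 1) / 4 = n ^ 2 + n := by
        have h2 : N ^ 2 = 4 * (n ^ 2 + n) + 1 := by rw [hn]; ring
        omega
      rw [h1] at hE
      have h5 : ((n : ℤ)) ^ 2 + n ≤ G.edgeFinset.card := by exact_mod_cast hE
      rw [hn]
      push_cast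
      linarith
  have hc4 : c ≤ 4 := by rcases hc with ⟨rfl, -⟩ | ⟨rfl, -⟩ <;> norm_num
  have hβ1 : 1 ≤ β := by
    rw [hβ]; exact Finset.card_pos.2 ⟨v, h.hvB⟩
  by_cases hβ2 : β = 1
  · exact (h.case_one c hc4 hEc hβ2).elim
  have hβ2' : 2 ≤ β := by omega
  have hY : ∀ z ∈ A \ S, G.degree z ≤ β := by
    intro z hz
    by_contra hlt
    exact h.case_pair c hc hEc hβ2' hz (by have := h.hdegR hz; omega)
  have hDβ : β ≤ D := by
    have h1 := arith_x N D β c G.edgeFinset.card (by exact_mod_cast hN) (by exact_mod_cast h.sum)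
      hc4 (by
        have h2 := h.sums
        have h3 : 0 ≤ ∑ z ∈ A \ S, Sit.f G D z := Finset.sum_nonneg (fun x _ => h.f0 x)
        have h4 : 0 ≤ ∑ z ∈ S, Sit.f G D z := Finset.sum_nonneg (fun x _ => h.f0 x)
        have h5 := h.SB0
        linarith) hEc
    exact_mod_cast h1
  have hsum := h.sum
  have hne' : D ≠ β := by
    intro he
    have hc4' : c = 4 := by
      rcases hc with ⟨-, h2⟩ | ⟨h1, -⟩
      · omega
      · exact h1
    rw [hc4'] at hEc
    exact h.case_zero hEc he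
  have hx1 : β < D := by omega
  by_cases hs : D < β + S.card
  · exact (h.case_big c hc hEc hβ2' hx1 hY hs).elim
  · obtain ⟨e1, e2, e3, e4⟩ := h.case_small c hc hEc hβ2' hx1 hY (by omega)
    exact ⟨A, by rw [hAcard, e4], h.final hβ2' hx1 hY e1 e2 e3⟩

end core

/-! ### the complete bipartite graph -/

/-- A graph that is complete bipartite between `A` and its complement. -/
theorem isoK {V : Type*} [Fintype V] [DecidableEq V] (G : SimpleGraph V) (A : Finset V) (N : ℕ)
    (hV : Fintype.card V = N) (hA : A.card = N / 2 + 1)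
    (h : ∀ x y, G.Adj x y ↔ ((x ∈ A ∧ y ∉ A) ∨ (x ∉ A ∧ y ∈ A))) :
    Nonempty (G ≃g completeBipartiteGraph (Fin ((N - 1) / 2)) (Fin (N / 2 + 1))) := by
  have c1 : Fintype.card {x // x ∉ A} = (N - 1) / 2 := by
    rw [Fintype.card_subtype_compl, hV, Fintype.card_coe, hA]
    omega
  have c2 : Fintype.card {x // ¬ x ∉ A} = N / 2 + 1 := by
    have : Fintype.card {x // ¬ x ∉ A} = Fintype.card {x // x ∈ A} :=
      Fintype.card_congr (Equiv.subtypeEquivRight (fun x => not_not))
    rw [this, Fintype.card_coe, hA]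
  let e1 := Fintype.equivFinOfCardEq c1
  let e2 := Fintype.equivFinOfCardEq c2
  let e : V ≃ Fin ((N - 1) / 2) ⊕ Fin (N / 2 + 1) :=
    (Equiv.sumCompl (fun x => x ∉ A)).symm.trans (Equiv.sumCongr e1 e2)
  have hl : ∀ x, (hx : x ∉ A) → e x = Sum.inl (e1 ⟨x, hx⟩) := by
    intro x hx
    simp only [e, Equiv.trans_apply]
    rw [Equiv.sumCompl_symm_apply_of_pos (p := fun x => x ∉ A) hx]
    rfl
  have hr : ∀ x, (hx : ¬ x ∉ A) → e x = Sum.inr (e2 ⟨x, hx⟩) := by
    intro x hx
    simp only [e, Equiv.trans_apply]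
    rw [Equiv.sumCompl_symm_apply_of_neg (p := fun x => x ∉ A) hx]
    rfl
  refine ⟨⟨e, ?_⟩⟩
  intro x y
  rw [h]
  by_cases hx : x ∉ A <;> by_cases hy : y ∉ A
  · rw [hl x hx, hl y hy]; simp [hx, hy]
  · rw [hl x hx, hr y hy]; simp [hx, not_not.1 hy]
  · rw [hr x hx, hl y hy]; simp [not_not.1 hx, hy]
  · rw [hr x hx, hr y hy]; simp [not_not.1 hx, not_not.1 hy]

/-- Degrees in the complete bipartite graph. -/
theorem degK {V : Type*} [Fintype V] [DecidableEq V] {G : SimpleGraph V} [DecidableRel G.Adj] {a b : ℕ}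
    (e : G ≃g completeBipartiteGraph (Fin a) (Fin b)) (x : V) :
    ((e x).isLeft = true → G.degree x = b) ∧ ((e x).isRight = true → G.degree x = a) := by
  constructor
  · intro hx
    have h1 : G.neighborFinset x = (Finset.univ : Finset (Fin b)).map
        ⟨fun j => e.symm (Sum.inr j), fun i j hij => by
          have := e.symm.injective hij
          exact Sum.inr_injective this⟩ := by
      ext y
      rw [SimpleGraph.mem_neighborFinset, Finset.mem_map, ← e.map_rel_iff]
      constructor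
      · intro hxy
        rcases hy : e y with i | j
        · rw [hy] at hxy
          rcases hxe : e x with i' | j'
          · rw [hxe] at hxy; simp at hxy
          · rw [hxe] at hx; simp at hx
        · refine ⟨j, Finset.mem_univ _, ?_⟩
          simp only [Function.Embedding.coeFn_mk]
          rw [← hy, RelIso.symm_apply_apply]
      · rintro ⟨j, -, rfl⟩
        simp only [Function.Embedding.coeFn_mk]
        rw [RelIso.apply_symm_apply]
        simp [completeBipartiteGraph_adj, hx]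
    rw [← G.card_neighborFinset_eq_degree, h1, Finset.card_map, Finset.card_univ, Fintype.card_fin]
  · intro hx
    have h1 : G.neighborFinset x = (Finset.univ : Finset (Fin a)).map
        ⟨fun j => e.symm (Sum.inl j), fun i j hij => by
          have := e.symm.injective hij
          exact Sum.inl_injective this⟩ := by
      ext y
      rw [SimpleGraph.mem_neighborFinset, Finset.mem_map, ← e.map_rel_iff]
      constructor
      · intro hxy
        rcases hy : e y with i | j
        · refine ⟨i, Finset.mem_univ _, ?_⟩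
          simp only [Function.Embedding.coeFn_mk]
          rw [← hy, RelIso.symm_apply_apply]
        · rw [hy] at hxy
          rcases hxe : e x with i' | j'
          · rw [hxe] at hx; simp at hx
          · rw [hxe] at hxy; simp at hxy
      · rintro ⟨j, -, rfl⟩
        simp only [Function.Embedding.coeFn_mk]
        rw [RelIso.apply_symm_apply]
        simp [completeBipartiteGraph_adj, hx]
    rw [← G.card_neighborFinset_eq_degree, h1, Finset.card_map, Finset.card_univ, Fintype.card_fin]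

/-- Sides in the complete bipartite graph. -/
theorem sideK {V : Type*} {G : SimpleGraph V} {a b : ℕ}
    (e : G ≃g completeBipartiteGraph (Fin a) (Fin b)) {x y : V} (h : G.Adj x y) :
    (e x).isLeft = true ↔ (e y).isRight = true := by
  rw [← e.map_rel_iff, completeBipartiteGraph_adj] at h
  rcases h with ⟨h1, h2⟩ | ⟨h1, h2⟩
  · simp [h1, h2]
  · rcases hx : e x with i | i <;> rcases hy : e y with j | j
    · rw [hx] at h1; simp at h1
    · rw [hx] at h1; simp at h1
    · simp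
    · rw [hy] at h2; simp at h2

theorem notPair {V : Type*} [Fintype V] [DecidableEq V] {G : SimpleGraph V} [DecidableRel G.Adj]
    {a b : ℕ} (hab : a ≠ b) (e : G ≃g completeBipartiteGraph (Fin a) (Fin b)) (x y z w : V)
    (h1 : G.Adj x y) (h2 : G.Adj y z) (h3 : G.Adj z w) : G.degree x ≠ G.degree w := by
  have k1 := sideK e h1
  have k2 := sideK e h2
  have k3 := sideK e h3
  have dx := degK e x
  have dw := degK e w
  rcases hx : e x with i | i <;> rcases hy : e y with j | j <;> rcases hz : e z with k | k <;>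
    rcases hw : e w with l | l <;> rw [hx, hy] at k1 <;> rw [hy, hz] at k2 <;>
    rw [hz, hw] at k3 <;> rw [hx] at dx <;> rw [hw] at dw <;> simp at k1 k2 k3 dx dw
  · rw [dx, dw]; exact hab.symm
  · rw [dx, dw]; exact hab

theorem edgesK (a b : ℕ) : (completeBipartiteGraph (Fin a) (Fin b)).edgeSet.ncard = a * b := by
  rw [Set.ncard, SimpleGraph.encard_edgeSet_completeBipartiteGraph]
  simp

theorem prodK (N : ℕ) (hN : 1 ≤ N) : (N - 1) / 2 * (N / 2 + 1) = (N ^ 2 - 1) / 4 := by
  rcases Nat.even_or_odd' N with ⟨n, hn | hn⟩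
  · obtain ⟨m, rfl⟩ : ∃ m, n = m + 1 := ⟨n - 1, by omega⟩
    have h1 : (N - 1) / 2 = m := by omega
    have h2 : N / 2 + 1 = m + 2 := by omega
    have h3 : N ^ 2 = 4 * (m * (m + 2)) + 4 := by rw [hn]; ring
    rw [h1, h2, h3]
    omega
  · have h1 : (N - 1) / 2 = n := by omega
    have h2 : N / 2 + 1 = n + 1 := by omega
    have h3 : N ^ 2 = 4 * (n * (n + 1)) + 1 := by rw [hn]; ring
    rw [h1, h2, h3]
    omega

end Pool.Agent.Lib.MPb875bc.EU
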